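import Pool.Agent.H474R2.PG.Final

set_option autoImplicit false

/-! # Long strings of consecutive integers at which an irreducible polynomial is composite

For every irreducible `f ∈ ℤ[x]` of positive degree with positive leading coefficient (for instance
`f = x^2 + 1`) there is `c > 0` such that for all large `Y` every interval `(M, M + Y]` with `M ≥ Y`
contains a string of more than `c log Y log log Y` consecutive integers `n` such that `f(n)` has a
prime factor which is at most `Y^(1/10)` and smaller than `f(n)`.

The theorem `composite_strings` is in the helper file `Pool/Agent/H474R2/PG/Final.lean` (helper474,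
on the covering sieve of helper256 and the Mertens theorem for number fields of helper921). -/

namespace Pool.Agent.Results.MP_484c84_nt.CompositeStrings

open Polynomial

theorem result :
    (∀ f : ℤ[X], Irreducible f → 0 < f.natDegree → 0 < f.leadingCoeff →
      ∃ c : ℝ, 0 < c ∧ ∃ Y₀ : ℝ, ∀ Y : ℝ, Y₀ ≤ Y → ∀ M : ℤ, Y ≤ M →
        ∃ x : ℤ, M < x ∧ (x : ℝ) + c * Real.log Y * Real.log (Real.log Y) ≤ M + Y ∧
          ∀ k : ℕ, (k : ℝ) ≤ c * Real.log Y * Real.log (Real.log Y) →
            ∃ p : ℕ, p.Prime ∧ (p : ℝ) ≤ Y ^ (1 / 10 : ℝ) ∧ (p : ℤ) ∣ f.eval (x + (k : ℤ)) ∧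
              (p : ℤ) < f.eval (x + (k : ℤ))) :=
  fun f hf hd hl => Pool.Agent.H474R2.PG.composite_strings f hf hd hl

end Pool.Agent.Results.MP_484c84_nt.CompositeStrings
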